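import Pool.Agent.Y809.PA.SHa

set_option autoImplicit false

/-!
# Task SH of project PA: sharp sieve for `n² + n + 1` in residue classes modulo prime powers
-/

namespace Pool.Agent.Y809.PA

open Finset Filter Topology Pool.Agent.Y346.PA
open Pool.Agent.H951R4.OD (ch PI Ex)
open Pool.Agent.W114.PQ (Dat Ax Pass EP wX datP)
open scoped Classical

theorem sum_inv_sq (S : Finset ℕ) (hS : ∀ q ∈ S, 2 ≤ q) : ∑ q ∈ S, 1 / (q : ℝ) ^ 2 ≤ 1 := by
  have key : ∀ N : ℕ, ∑ q ∈ Icc 2 (N + 1), 1 / (q : ℝ) ^ 2 ≤ 1 - 1 / ((N : ℝ) + 1) := by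
    intro N
    induction N with
    | zero => simp
    | succ N ih =>
      rw [Finset.sum_Icc_succ_top (by omega)]
      push_cast at ih ⊢
      have h1 : 1 / ((N : ℝ) + 1 + 1) ^ 2 ≤ 1 / ((N : ℝ) + 1) - 1 / ((N : ℝ) + 1 + 1) := by
        rw [div_sub_div _ _ (by positivity) (by positivity), div_le_div_iff₀ (by positivity) (by positivity)]
        have : (0 : ℝ) ≤ N := Nat.cast_nonneg _
        nlinarith
      linarith
  have h1 : S ⊆ Icc 2 (S.sup id + 1) := by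
    intro q hq
    rw [mem_Icc]
    have : q ≤ S.sup id := Finset.le_sup (f := id) hq
    exact ⟨hS q hq, by omega⟩
  have h2 : ∑ q ∈ S, 1 / (q : ℝ) ^ 2 ≤ ∑ q ∈ Icc 2 (S.sup id + 1), 1 / (q : ℝ) ^ 2 :=
    Finset.sum_le_sum_of_subset_of_nonneg h1 (fun q _ _ => by positivity)
  have h3 := key (S.sup id)
  have h4 : 0 ≤ 1 / (((S.sup id : ℕ) : ℝ) + 1) := by positivity
  linarith

/-- the density -/
noncomputable def gq (q : ℕ) : ℝ := (cq q : ℝ) / (q : ℝ) ^ 2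

theorem gq_nonneg (q : ℕ) : 0 ≤ gq q := by unfold gq; positivity

theorem gq_bounds (q : ℕ) (hq : q.Prime) (h3 : 3 < q) :
    gq q ≤ (1 + ch (-3) q) / q ∧ (1 + ch (-3) q) / q - 2 * (1 / (q : ℝ) ^ 2) ≤ gq q ∧ gq q ≤ 2 / q ∧ gq q < 1 := by
  have hq0 : (0 : ℝ) < q := by exact_mod_cast hq.pos
  have hq3 : (3 : ℝ) < q := by exact_mod_cast h3
  obtain ⟨h1, h2⟩ := cq_le q hq h3
  have h4 : (1 + ch (-3) q) ≤ 2 := by
    rcases Pool.Agent.H951R4.OD.ch_val (-3) q with h | h | h <;> rw [h] <;> norm_num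
  have a1 : gq q ≤ (1 + ch (-3) q) / q := by
    unfold gq
    rw [div_le_div_iff₀ (by positivity) hq0]
    nlinarith
  have a3 : gq q ≤ 2 / q := a1.trans (by gcongr)
  refine ⟨a1, ?_, a3, ?_⟩
  · unfold gq
    have e : (1 + ch (-3) q) / q - 2 * (1 / (q : ℝ) ^ 2) = (q * (1 + ch (-3) q) - 2) / (q : ℝ) ^ 2 := by
      field_simp
    rw [e]
    gcongr
  · refine lt_of_le_of_lt a3 ?_
    rw [div_lt_one hq0]
    linarith

theorem exists_J (E X : ℕ) (hE : 1 ≤ E) (hX : 2 ^ E ≤ X) :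
    ∃ J : ℕ, (2 ^ 2 ^ J) ^ E ≤ X ∧ X < (2 ^ 2 ^ (J + 1)) ^ E := by
  have h0 : (2 ^ 2 ^ 0) ^ E ≤ X := by simpa using hX
  have hlt : ∀ J : ℕ, J < (2 ^ 2 ^ J) ^ E := by
    intro J
    have h1 : J < 2 ^ J := Nat.lt_two_pow_self
    have h2 : 2 ^ J < 2 ^ 2 ^ J := Nat.lt_two_pow_self
    have h3 : 2 ^ 2 ^ J ≤ (2 ^ 2 ^ J) ^ E := Nat.le_self_pow (by omega) _
    omega
  refine ⟨Nat.findGreatest (fun J => (2 ^ 2 ^ J) ^ E ≤ X) X, ?_, ?_⟩
  · exact Nat.findGreatest_spec (P := fun J => (2 ^ 2 ^ J) ^ E ≤ X) (Nat.zero_le X) h0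
  · by_contra hcon
    push Not at hcon
    have h4 : Nat.findGreatest (fun J => (2 ^ 2 ^ J) ^ E ≤ X) X + 1 ≤ X := by
      have := hlt (Nat.findGreatest (fun J => (2 ^ 2 ^ J) ^ E ≤ X) X + 1)
      omega
    exact Nat.findGreatest_is_greatest (Nat.lt_succ_self _) h4 hcon

/-- squarefree numbers up to `D` with all prime factors in `P` -/
theorem card_sets (P : Finset ℕ) (hP : ∀ q ∈ P, q.Prime) (D : ℕ) :
    (P.powerset.filter (fun T : Finset ℕ => ∏ q ∈ T, q ≤ D)).card ≤ D := by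
  have h1 : D = (Icc 1 D).card := by simp
  conv_rhs => rw [h1]
  refine Finset.card_le_card_of_injOn (fun T => ∏ q ∈ T, q) ?_ ?_
  · intro T hT
    rw [Finset.mem_coe, mem_filter, mem_powerset] at hT
    rw [Finset.mem_coe, mem_Icc]
    exact ⟨Finset.prod_pos (fun q hq => (hP q (hT.1 hq)).pos), hT.2⟩
  · intro T hT T' hT' h
    rw [Finset.mem_coe, mem_filter, mem_powerset] at hT hT'
    simp only at h
    rw [← Nat.primeFactors_prod (fun q hq => hP q (hT.1 hq)), ← Nat.primeFactors_prod (fun q hq => hP q (hT'.1 hq)), h]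

theorem sh : S_SH := by
  obtain ⟨C0, hC0, hF⟩ := Pool.Agent.H20R2.fLem 2
  obtain ⟨Cm, hm⟩ := Pool.Agent.W613.PQDp.dp.mert
  have hm' : ∀ y z : ℕ, 2 ≤ y → y ≤ z →
      Real.log (Real.log z / Real.log y) - Cm ≤ ∑ q ∈ PI y z, (1 + ch (-3) q) / q := by
    intro y z hy hyz
    have h : |∑ q ∈ PI y z, (1 + ch (-3) q) / q - 1 * Real.log (Real.log z / Real.log y)| ≤ Cm := hm y z hy hyz
    have := (abs_le.mp h).1
    linarith
  have hCm : 0 ≤ Cm := (abs_nonneg _).trans (hm 2 2 le_rfl le_rfl)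
  have hC0r : (1 : ℝ) ≤ C0 := by exact_mod_cast hC0
  have hlC0 : 0 ≤ Real.log C0 := Real.log_nonneg hC0r
  set E : ℕ := 16 * (C0 * C0) with hE
  have hE1 : 1 ≤ E := by rw [hE]; nlinarith
  refine ⟨4 * E * Real.exp (Cm + 3) * (1 + Real.log C0) + 1, by
    have : 0 ≤ 4 * (E : ℝ) * Real.exp (Cm + 3) * (1 + Real.log C0) := by positivity
    linarith, ?_⟩
  intro Y hY
  set z0 : ℕ := max Y C0 with hz0
  have hz0Y : Y ≤ z0 := le_max_left _ _
  have hz0C : C0 ≤ z0 := le_max_right _ _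
  refine ⟨max (z0 ^ (2 * E)) (max (2 ^ E) 32), ?_⟩
  intro X p e a hX hp hpe
  have hX1 : z0 ^ (2 * E) ≤ X := (le_max_left _ _).trans hX
  have hX2 : 2 ^ E ≤ X := ((le_max_left _ _).trans (le_max_right _ _)).trans hX
  have hX3 : 32 ≤ X := ((le_max_right _ _).trans (le_max_right _ _)).trans hX
  have hXr : (32 : ℝ) ≤ X := by exact_mod_cast hX3
  have hX0 : (0 : ℝ) < X := by linarith
  have hlX : 0 < Real.log X := Real.log_pos (by linarith)
  obtain ⟨J, hJ1, hJ2⟩ := exists_J E X hE1 hX2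
  set z : ℕ := 2 ^ 2 ^ J with hz
  have hz2 : 2 ≤ z := by
    rw [hz]
    calc 2 = 2 ^ 1 := rfl
      _ ≤ 2 ^ 2 ^ J := Nat.pow_le_pow_right (by norm_num) Nat.one_le_two_pow
  have hzz : (2 ^ 2 ^ (J + 1)) = z ^ 2 := by
    rw [hz, ← pow_mul]; congr 1
  rw [hzz, ← pow_mul] at hJ2
  have hz0z : z0 ≤ z := by
    by_contra h
    push Not at h
    have : z ^ (2 * E) < z0 ^ (2 * E) := Nat.pow_lt_pow_left h (by omega)
    omega
  set D : ℕ := z ^ (C0 * C0) with hD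
  have hzD : z ≤ D := Nat.le_self_pow (by nlinarith) _
  have hD16 : D ^ 16 ≤ X := by
    rw [hD, ← pow_mul]
    refine le_trans (le_of_eq ?_) hJ1
    rw [hE]; congr 1; ring
  have hDJ : J + 2 ≤ D := by
    refine le_trans ?_ hzD
    have h1 : J + 1 < 2 ^ (J + 1) := Nat.lt_two_pow_self
    have h2 : 2 ^ (J + 1) ≤ 2 ^ 2 ^ J := Nat.pow_le_pow_right (by norm_num) (Nat.lt_two_pow_self)
    rw [hz]; omega
  set P : Finset ℕ := (PI z0 z).erase p with hP
  have hPmem : ∀ q ∈ P, q.Prime ∧ z0 < q ∧ q ≤ z ∧ q ≠ p := by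
    intro q hq
    rw [hP, mem_erase] at hq
    unfold PI at hq
    rw [mem_filter, mem_Ioc] at hq
    exact ⟨hq.2.2, hq.2.1.1, hq.2.1.2, hq.1⟩
  have hP3 : ∀ q ∈ P, 3 < q := fun q hq => by
    have := (hPmem q hq).2.1
    omega
  have hpn0 : (0 : ℝ) < (p : ℝ) ^ e := by
    have : (0 : ℝ) < p := by exact_mod_cast hp.pos
    positivity
  set A : ℝ := (X : ℝ) / (p : ℝ) ^ e with hA
  have hA0 : 0 < A := by positivity
  set Ω : Finset ℕ := (Icc 1 X).filter (fun n : ℕ => n ≡ a [MOD p ^ e]) with hΩ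
  have hmain := hF C0 J z0 P gq le_rfl hz0C (fun q hq => ⟨(hPmem q hq).1, (hPmem q hq).2.1, (hPmem q hq).2.2.1⟩)
    (fun q hq => ⟨gq_nonneg q, by
      have h1 := (gq_bounds q (hPmem q hq).1 (hP3 q hq)).2.2.1
      refine h1.trans ?_
      have h2 : (3 : ℝ) < q := by exact_mod_cast hP3 q hq
      push_cast
      apply div_le_div_of_nonneg_left (by norm_num) (by linarith) (by linarith)⟩)
    Ω (fun _ => 1) (fun q n => TT q n) A (fun T => ∏ q ∈ T, (cq q : ℝ)) (fun _ _ => zero_le_one) hA0.le (by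
      intro T hT _
      rw [Finset.sum_const, nsmul_eq_mul, mul_one, hΩ, Finset.filter_filter]
      have hTp : ∀ q ∈ T, q.Prime := fun q hq => (hPmem q (hT hq)).1
      have hpT : p ∉ T := fun h => (hPmem p (hT h)).2.2.2 rfl
      have := count_T p e a X hp T hTp hpT
      unfold gq
      convert this)
  -- the set is contained in the sifted set
  have hsub : (Icc 1 X).filter (fun n : ℕ => n ≡ a [MOD p ^ e] ∧ ∀ q : ℕ, TT q n → Y < q → X < q ^ 2) ⊆
      Ω.filter (fun m => ∀ q ∈ P, ¬ TT q m) := by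
    intro n hn
    rw [mem_filter] at hn
    rw [mem_filter, hΩ, mem_filter]
    refine ⟨⟨hn.1, hn.2.1⟩, fun q hq hT => ?_⟩
    obtain ⟨h1, h2, h3, h4⟩ := hPmem q hq
    have h5 := hn.2.2 q hT (by omega)
    have h6 : q ^ 2 ≤ z ^ 2 := Nat.pow_le_pow_left h3 2
    have h7 : z ^ 2 ≤ z ^ E := Nat.pow_le_pow_right (by omega) (by rw [hE]; nlinarith)
    omega
  have hcard : (((Icc 1 X).filter (fun n : ℕ => n ≡ a [MOD p ^ e] ∧ ∀ q : ℕ, TT q n → Y < q → X < q ^ 2)).card : ℝ) ≤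
      ∑ m ∈ Ω.filter (fun m => ∀ q ∈ P, ¬ TT q m), (1 : ℝ) := by
    rw [Finset.sum_const, nsmul_eq_mul, mul_one]
    exact_mod_cast Finset.card_le_card hsub
  -- the error
  have herr : ((J : ℝ) + 2) * ∑ T ∈ P.powerset.filter (fun T : Finset ℕ => ∏ q ∈ T, q ≤ z ^ (C0 * C0)),
      ∏ q ∈ T, (cq q : ℝ) ≤ (D : ℝ) ^ 4 := by
    have h1 : ∀ T ∈ P.powerset.filter (fun T : Finset ℕ => ∏ q ∈ T, q ≤ z ^ (C0 * C0)),
        ∏ q ∈ T, (cq q : ℝ) ≤ (D : ℝ) ^ 2 := by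
      intro T hT
      rw [mem_filter, mem_powerset] at hT
      have h2 : ∏ q ∈ T, cq q ≤ ∏ q ∈ T, q ^ 2 := Finset.prod_le_prod' (fun q _ => cq_le_sq q)
      have h3 : ∏ q ∈ T, q ^ 2 ≤ D ^ 2 := by
        rw [Finset.prod_pow]
        exact Nat.pow_le_pow_left hT.2 2
      exact_mod_cast h2.trans h3
    have h2 := Finset.sum_le_card_nsmul _ _ _ h1
    rw [nsmul_eq_mul] at h2
    have h3 := card_sets P (fun q hq => (hPmem q hq).1) D
    have h3' : ((P.powerset.filter (fun T : Finset ℕ => ∏ q ∈ T, q ≤ z ^ (C0 * C0))).card : ℝ) ≤ D := by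
      exact_mod_cast h3
    have h4 : ((J : ℝ) + 2) ≤ D := by exact_mod_cast hDJ
    have h5 : (0 : ℝ) ≤ ∑ T ∈ P.powerset.filter (fun T : Finset ℕ => ∏ q ∈ T, q ≤ z ^ (C0 * C0)),
      ∏ q ∈ T, (cq q : ℝ) := Finset.sum_nonneg (fun T _ => Finset.prod_nonneg (fun q _ => Nat.cast_nonneg _))
    calc ((J : ℝ) + 2) * ∑ T ∈ P.powerset.filter (fun T : Finset ℕ => ∏ q ∈ T, q ≤ z ^ (C0 * C0)),
          ∏ q ∈ T, (cq q : ℝ) ≤ D * (D * (D : ℝ) ^ 2) := by
          refine mul_le_mul h4 (h2.trans ?_) h5 (Nat.cast_nonneg _)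
          gcongr
      _ = (D : ℝ) ^ 4 := by ring
  have hD4 : (D : ℝ) ^ 4 ≤ A / Real.log X := by
    have h1 : (D : ℝ) ^ 4 ≤ (X : ℝ) ^ (1 / 4 : ℝ) := by
      have h2 : ((D : ℝ) ^ 16) ^ (1 / 4 : ℝ) ≤ (X : ℝ) ^ (1 / 4 : ℝ) := by
        apply Real.rpow_le_rpow (by positivity) _ (by norm_num)
        exact_mod_cast hD16
      have h3 : ((D : ℝ) ^ 16) ^ (1 / 4 : ℝ) = (D : ℝ) ^ 4 := by
        rw [← Real.rpow_natCast, ← Real.rpow_mul (Nat.cast_nonneg _), ← Real.rpow_natCast]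
        norm_num
      rwa [h3] at h2
    have h2 : (p : ℝ) ^ e ≤ (X : ℝ) ^ (1 / 10 : ℝ) := by
      have h2 : (((p : ℝ) ^ e) ^ 10) ^ (1 / 10 : ℝ) ≤ (X : ℝ) ^ (1 / 10 : ℝ) := by
        apply Real.rpow_le_rpow (by positivity) _ (by norm_num)
        rw [← pow_mul, mul_comm e 10]
        exact_mod_cast hpe
      have h3 : (((p : ℝ) ^ e) ^ 10) ^ (1 / 10 : ℝ) = (p : ℝ) ^ e := by
        rw [← Real.rpow_natCast ((p : ℝ) ^ e) 10, ← Real.rpow_mul hpn0.le]
        norm_num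
      rwa [h3] at h2
    have h3 : Real.log X ≤ 4 * (X : ℝ) ^ (1 / 4 : ℝ) := by
      have := Real.log_le_rpow_div hX0.le (show (0 : ℝ) < 1 / 4 by norm_num)
      refine this.trans (le_of_eq ?_)
      ring
    have h4 : (4 : ℝ) ≤ (X : ℝ) ^ (2 / 5 : ℝ) := by
      calc (4 : ℝ) = 32 ^ (2 / 5 : ℝ) := by
            rw [show (32 : ℝ) = 2 ^ (5 : ℝ) by norm_num, ← Real.rpow_mul (by norm_num)]
            norm_num
        _ ≤ (X : ℝ) ^ (2 / 5 : ℝ) := Real.rpow_le_rpow (by norm_num) hXr (by norm_num)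
    rw [le_div_iff₀ hlX, hA, le_div_iff₀ hpn0]
    calc (D : ℝ) ^ 4 * Real.log X * (p : ℝ) ^ e ≤
          (X : ℝ) ^ (1 / 4 : ℝ) * (4 * (X : ℝ) ^ (1 / 4 : ℝ)) * (X : ℝ) ^ (1 / 10 : ℝ) := by gcongr
      _ = 4 * ((X : ℝ) ^ (1 / 4 : ℝ) * (X : ℝ) ^ (1 / 4 : ℝ) * (X : ℝ) ^ (1 / 10 : ℝ)) := by ring
      _ = 4 * (X : ℝ) ^ (3 / 5 : ℝ) := by
          rw [← Real.rpow_add hX0, ← Real.rpow_add hX0]; norm_num
      _ ≤ (X : ℝ) ^ (2 / 5 : ℝ) * (X : ℝ) ^ (3 / 5 : ℝ) := by gcongr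
      _ = X := by rw [← Real.rpow_add hX0]; norm_num
  -- the product
  have hlz0 : 0 < Real.log z0 := by
    apply Real.log_pos
    have : 3 ≤ z0 := by omega
    have : (3 : ℝ) ≤ z0 := by exact_mod_cast this
    linarith
  have hlz : 0 < Real.log z := by
    apply Real.log_pos
    have : (2 : ℝ) ≤ z := by exact_mod_cast hz2
    linarith
  have hprod : ∏ q ∈ P, (1 - gq q) ≤ Real.exp (Cm + 3) * (Real.log z0 / Real.log z) := by
    have h1 : ∏ q ∈ P, (1 - gq q) ≤ ∏ q ∈ P, Real.exp (-gq q) := by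
      refine Finset.prod_le_prod (fun q hq => ?_) (fun q _ => ?_)
      · have := (gq_bounds q (hPmem q hq).1 (hP3 q hq)).2.2.2
        linarith
      · have := Real.add_one_le_exp (-gq q)
        linarith
    rw [← Real.exp_sum, Finset.sum_neg_distrib] at h1
    have h2 : Real.log (Real.log z / Real.log z0) - Cm - 3 ≤ ∑ q ∈ P, gq q := by
      have h3 := hm' z0 z (by omega) hz0z
      have h4 : ∑ q ∈ PI z0 z, ((1 + ch (-3) q) / q - 2 * (1 / (q : ℝ) ^ 2)) - 1 ≤ ∑ q ∈ P, gq q := by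
        have h5 : ∀ q ∈ PI z0 z, q.Prime ∧ 3 < q := by
          intro q hq
          unfold PI at hq
          rw [mem_filter, mem_Ioc] at hq
          exact ⟨hq.2, by omega⟩
        have h6 : ∑ q ∈ PI z0 z, ((1 + ch (-3) q) / q - 2 * (1 / (q : ℝ) ^ 2)) ≤ ∑ q ∈ PI z0 z, gq q :=
          Finset.sum_le_sum (fun q hq => (gq_bounds q (h5 q hq).1 (h5 q hq).2).2.1)
        have h7 : ∑ q ∈ PI z0 z, gq q ≤ ∑ q ∈ P, gq q + 1 := by
          by_cases hpP : p ∈ PI z0 z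
          · rw [hP, ← Finset.sum_erase_add _ _ hpP]
            have := (gq_bounds p (h5 p hpP).1 (h5 p hpP).2).2.2.2
            linarith
          · rw [hP, Finset.erase_eq_of_notMem hpP]
            linarith
        linarith
      rw [Finset.sum_sub_distrib, ← Finset.mul_sum] at h4
      have h8 := sum_inv_sq (PI z0 z) (by
        intro q hq
        unfold PI at hq
        rw [mem_filter] at hq
        exact hq.2.two_le)
      linarith
    have h3 : Real.exp (-∑ q ∈ P, gq q) ≤ Real.exp (-(Real.log (Real.log z / Real.log z0) - Cm - 3)) :=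
      Real.exp_le_exp.mpr (by linarith)
    refine h1.trans (h3.trans (le_of_eq ?_))
    rw [show -(Real.log (Real.log z / Real.log z0) - Cm - 3) = (Cm + 3) + (-Real.log (Real.log z / Real.log z0)) by ring,
      Real.exp_add, Real.exp_neg, Real.exp_log (by positivity), inv_div]
  have hlogz0 : Real.log z0 ≤ (1 + Real.log C0) * Real.log Y := by
    have hY3 : (3 : ℝ) ≤ Y := by exact_mod_cast hY
    have hY1 : 1 ≤ Real.log Y := by
      rw [Real.le_log_iff_exp_le (by linarith)]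
      have := Real.exp_one_lt_d9
      linarith
    have h1 : z0 ≤ Y * C0 := by
      rw [hz0]
      apply max_le
      · nlinarith
      · nlinarith
    have h2 : (z0 : ℝ) ≤ Y * C0 := by exact_mod_cast h1
    have hz0pos : (0 : ℝ) < z0 := by
      have : 0 < z0 := by omega
      exact_mod_cast this
    have h3 := Real.log_le_log hz0pos h2
    rw [Real.log_mul (by linarith) (by linarith)] at h3
    nlinarith
  have hlogz : Real.log X ≤ 2 * E * Real.log z := by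
    have h1 : (X : ℝ) ≤ (z : ℝ) ^ (2 * E) := by exact_mod_cast hJ2.le
    have h2 := Real.log_le_log hX0 h1
    rw [Real.log_pow] at h2
    push_cast at h2
    linarith
  -- conclusion
  have hY3 : (3 : ℝ) ≤ Y := by exact_mod_cast hY
  have hY1 : 1 ≤ Real.log Y := by
    rw [Real.le_log_iff_exp_le (by linarith)]
    have := Real.exp_one_lt_d9
    linarith
  have hprod0 : 0 ≤ ∏ q ∈ P, (1 - gq q) := Finset.prod_nonneg (fun q hq => by
    have := (gq_bounds q (hPmem q hq).1 (hP3 q hq)).2.2.2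
    linarith)
  have hb : (1 / 2 : ℝ) ^ C0 ≤ 1 := pow_le_one₀ (by norm_num) (by norm_num)
  have hfin := (abs_le.mp hmain).2
  have h1 : (((Icc 1 X).filter (fun n : ℕ => n ≡ a [MOD p ^ e] ∧ ∀ q : ℕ, TT q n → Y < q → X < q ^ 2)).card : ℝ) ≤
      2 * (A * ∏ q ∈ P, (1 - gq q)) + A / Real.log X := by
    have h2 : (1 / 2 : ℝ) ^ C0 * (A * ∏ q ∈ P, (1 - gq q)) ≤ 1 * (A * ∏ q ∈ P, (1 - gq q)) := by gcongr
    linarith
  have h2 : Real.log z0 / Real.log z ≤ (1 + Real.log C0) * Real.log Y * (2 * E) / Real.log X := by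
    rw [div_le_div_iff₀ hlz hlX]
    calc Real.log z0 * Real.log X ≤ ((1 + Real.log C0) * Real.log Y) * (2 * E * Real.log z) := by gcongr
      _ = (1 + Real.log C0) * Real.log Y * (2 * E) * Real.log z := by ring
  have h3 : 2 * (A * ∏ q ∈ P, (1 - gq q)) ≤
      2 * (A * (Real.exp (Cm + 3) * ((1 + Real.log C0) * Real.log Y * (2 * E) / Real.log X))) := by
    have := hprod.trans (mul_le_mul_of_nonneg_left h2 (Real.exp_pos _).le)
    gcongr
  refine h1.trans ?_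
  have h4 : A / Real.log X ≤ Real.log Y * (A / Real.log X) := by
    have : 0 ≤ A / Real.log X := by positivity
    nlinarith
  calc 2 * (A * ∏ q ∈ P, (1 - gq q)) + A / Real.log X ≤
        2 * (A * (Real.exp (Cm + 3) * ((1 + Real.log C0) * Real.log Y * (2 * E) / Real.log X))) +
          Real.log Y * (A / Real.log X) := add_le_add h3 h4
    _ = (4 * E * Real.exp (Cm + 3) * (1 + Real.log C0) + 1) * Real.log Y * X / ((p : ℝ) ^ e * Real.log X) := by
        rw [hA]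
        field_simp
        ring

end Pool.Agent.Y809.PA
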