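import Pool.Agent.Y346.PA.Stm
import Pool.Agent.H20R2.EN.FLem
import Pool.Agent.W613.PQDp

set_option autoImplicit false

/-!
# Task SH of project PA, part a: counting integers in residue classes
-/

namespace Pool.Agent.Y809.PA

open Finset Filter Topology Pool.Agent.Y346.PA
open Pool.Agent.H951R4.OD (ch PI Ex)
open Pool.Agent.W114.PQ (Dat Ax Pass EP wX datP)
open scoped Classical

theorem fcc {s : Finset ℕ} {f g : ℕ → Prop} (i1 : DecidablePred f) (i2 : DecidablePred g)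
    (h : ∀ n, f n ↔ g n) : (@Finset.filter _ f i1 s).card = (@Finset.filter _ g i2 s).card := by
  congr 1
  ext n
  rw [mem_filter, mem_filter, h]

/-- the number of solutions in one period, for two coprime periods -/
theorem crt_card (Q1 Q2 : ℕ) (h : Nat.Coprime Q1 Q2) (hQ1 : 0 < Q1) (hQ2 : 0 < Q2) (f1 f2 : ℕ → Prop)
    (p1 : ∀ n, f1 n ↔ f1 (n % Q1)) (p2 : ∀ n, f2 n ↔ f2 (n % Q2)) :
    ((range (Q1 * Q2)).filter (fun n => f1 n ∧ f2 n)).card =
      ((range Q1).filter f1).card * ((range Q2).filter f2).card := by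
  rw [← Finset.card_product]
  refine Finset.card_bij (fun n _ => (n % Q1, n % Q2)) ?_ ?_ ?_
  · intro n hn
    rw [mem_filter, mem_range] at hn
    rw [mem_product, mem_filter, mem_filter, mem_range, mem_range]
    exact ⟨⟨Nat.mod_lt _ hQ1, (p1 n).mp hn.2.1⟩, ⟨Nat.mod_lt _ hQ2, (p2 n).mp hn.2.2⟩⟩
  · intro n hn m hm hnm
    rw [mem_filter, mem_range] at hn hm
    simp only [Prod.mk.injEq] at hnm
    have h1 : n ≡ m [MOD Q1 * Q2] := (Nat.modEq_and_modEq_iff_modEq_mul h).mp ⟨hnm.1, hnm.2⟩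
    exact Nat.ModEq.eq_of_lt_of_lt h1 hn.1 hm.1
  · rintro ⟨a, b⟩ hab
    rw [mem_product, mem_filter, mem_filter, mem_range, mem_range] at hab
    obtain ⟨⟨ha, fa⟩, ⟨hb, fb⟩⟩ := hab
    obtain ⟨k, hk1, hk2⟩ := Nat.chineseRemainder h a b
    have e1 : (k % (Q1 * Q2)) % Q1 = a := by
      rw [Nat.mod_mul_right_mod]
      have : k % Q1 = a % Q1 := hk1
      rw [this]; exact Nat.mod_eq_of_lt ha
    have e2 : (k % (Q1 * Q2)) % Q2 = b := by
      rw [Nat.mod_mul_left_mod]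
      have : k % Q2 = b % Q2 := hk2
      rw [this]; exact Nat.mod_eq_of_lt hb
    refine ⟨k % (Q1 * Q2), ?_, ?_⟩
    · rw [mem_filter, mem_range]
      refine ⟨Nat.mod_lt _ (Nat.mul_pos hQ1 hQ2), ?_, ?_⟩
      · rw [p1, e1]; exact fa
      · rw [p2, e2]; exact fb
    · simp only [e1, e2]

/-- the number of solutions up to `X` -/
theorem periodic_count (Q X : ℕ) (hQ : 0 < Q) (f : ℕ → Prop) (pf : ∀ n, f n ↔ f (n % Q)) :
    |(((Icc 1 X).filter f).card : ℝ) - (X : ℝ) / Q * (((range Q).filter f).card : ℝ)| ≤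
      (((range Q).filter f).card : ℝ) := by
  have hper : Function.Periodic f Q := by
    intro n
    rw [eq_iff_iff, pf, pf n, Nat.add_mod_right]
  have hblock : ∀ k : ℕ, ((Ico 1 (1 + Q * k)).filter f).card = k * ((range Q).filter f).card := by
    intro k
    induction k with
    | zero => simp
    | succ k ih =>
      have e : (Ico 1 (1 + Q * (k + 1))).filter f = (Ico 1 (1 + Q * k)).filter f ∪
          (Ico (1 + Q * k) (1 + Q * k + Q)).filter f := by
        rw [← Finset.filter_union, Finset.Ico_union_Ico_eq_Ico (by omega) (by omega)]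
        congr 2
        ring
      have hd : Disjoint ((Ico 1 (1 + Q * k)).filter f) ((Ico (1 + Q * k) (1 + Q * k + Q)).filter f) := by
        rw [Finset.disjoint_left]
        intro n a b
        rw [mem_filter, mem_Ico] at a b
        omega
      rw [e, card_union_of_disjoint hd, ih, Nat.filter_Ico_card_eq_of_periodic _ _ _ hper,
        Nat.count_eq_card_filter_range]
      ring
  set k := X / Q with hk
  have h1 : (Ico 1 (1 + Q * k)).filter f ⊆ (Icc 1 X).filter f := by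
    apply Finset.filter_subset_filter
    intro n hn
    rw [mem_Ico] at hn
    rw [mem_Icc]
    have := Nat.mul_div_le X Q
    rw [← hk] at this
    omega
  have h2 : (Icc 1 X).filter f ⊆ (Ico 1 (1 + Q * (k + 1))).filter f := by
    apply Finset.filter_subset_filter
    intro n hn
    rw [mem_Icc] at hn
    rw [mem_Ico]
    have := Nat.lt_mul_div_succ X hQ
    rw [← hk] at this
    exact ⟨hn.1, by omega⟩
  have h3 := Finset.card_le_card h1
  have h4 := Finset.card_le_card h2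
  rw [hblock] at h3 h4
  set N := ((range Q).filter f).card with hN
  have h3' : (k : ℝ) * N ≤ (((Icc 1 X).filter f).card : ℝ) := by exact_mod_cast h3
  have h4' : (((Icc 1 X).filter f).card : ℝ) ≤ ((k : ℝ) + 1) * N := by exact_mod_cast h4
  have hQ0 : (0 : ℝ) < Q := by exact_mod_cast hQ
  have h5 : (k : ℝ) ≤ X / Q := by
    rw [le_div_iff₀ hQ0]
    have := Nat.div_mul_le_self X Q
    exact_mod_cast this
  have h6 : (X : ℝ) / Q ≤ k + 1 := by
    rw [div_le_iff₀ hQ0]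
    have := Nat.lt_mul_div_succ X hQ
    rw [← hk, mul_comm] at this
    exact_mod_cast this.le
  have hN0 : (0 : ℝ) ≤ N := Nat.cast_nonneg _
  have h7 := mul_le_mul_of_nonneg_right h5 hN0
  have h8 := mul_le_mul_of_nonneg_right h6 hN0
  rw [abs_le]
  constructor <;> linarith

/-- number of classes modulo `q²` with `TT q n` -/
noncomputable def cq (q : ℕ) : ℕ := ((range (q ^ 2)).filter (fun n => TT q n)).card

theorem TT_mod (q n : ℕ) : TT q n ↔ TT q (n % q ^ 2) := by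
  unfold TT
  have h := Nat.mod_add_div n (q ^ 2)
  have h1 := Pool.Agent.W613.PQDp.dvd_add_mul q (n % q ^ 2) (q * (n / q ^ 2))
  have h2 := Pool.Agent.W613.PQDp.dvd_add_mul (q ^ 2) (n % q ^ 2) (n / q ^ 2)
  rw [← mul_assoc, ← sq, h] at h1
  rw [h] at h2
  rw [h1, h2]

theorem cq_le (q : ℕ) (hq : q.Prime) (h3 : 3 < q) :
    (cq q : ℝ) ≤ q * (1 + ch (-3) q) ∧ q * (1 + ch (-3) q) - 2 ≤ (cq q : ℝ) := by
  have h6 : ¬ q ∣ 6 := by
    intro h
    have h7 : q ≤ 6 := Nat.le_of_dvd (by norm_num) h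
    interval_cases q <;> first | omega | (revert hq; decide)
  have e : cq q = ((range (q ^ 2)).filter (fun n : ℕ => q ∣ n ^ 2 + n + 1 ∧ ¬ q ^ 2 ∣ n ^ 2 + n + 1)).card := by
    unfold cq
    congr 1
    apply Finset.filter_congr
    intro n _
    unfold TT
    constructor
    · rintro ⟨_, _, h⟩; exact h
    · intro h; exact ⟨hq, h3, h⟩
  have h1 : |(((range (q ^ 2)).filter (fun n : ℕ => q ∣ n ^ 2 + n + 1 ∧ ¬ q ^ 2 ∣ n ^ 2 + n + 1)).card : ℝ) -
      q * (1 + ch (-3) q)| ≤ 2 := by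
    convert Pool.Agent.W613.PQDp.cnt_aux q hq h6 (fun n => Classical.propDecidable _)
  have h2 : (((range (q ^ 2)).filter (fun n : ℕ => q ∣ n ^ 2 + n + 1 ∧ ¬ q ^ 2 ∣ n ^ 2 + n + 1)).card : ℝ) ≤
      q * (1 + ch (-3) q) := by
    rw [← Pool.Agent.W613.PQDp.card_q q hq h6]
    have := Pool.Agent.W613.PQDp.card_q2 q hq.pos
    have h3 : ((range (q ^ 2)).filter (fun n : ℕ => q ∣ n ^ 2 + n + 1 ∧ ¬ q ^ 2 ∣ n ^ 2 + n + 1)).card ≤
        ((range (q ^ 2)).filter (fun n : ℕ => q ∣ n ^ 2 + n + 1)).card := by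
      apply Finset.card_le_card
      intro n hn
      rw [mem_filter] at hn ⊢
      exact ⟨hn.1, hn.2.1⟩
    rw [this] at h3
    exact_mod_cast h3
  rw [e]
  refine ⟨h2, ?_⟩
  have := (abs_le.mp h1).1
  linarith

theorem cq_le_sq (q : ℕ) : cq q ≤ q ^ 2 := by
  unfold cq
  exact (Finset.card_filter_le _ _).trans (by rw [card_range])

/-- one period, several primes -/
theorem card_prod (T : Finset ℕ) (hT : ∀ q ∈ T, q.Prime) :
    ((range (∏ q ∈ T, q ^ 2)).filter (fun n => ∀ q ∈ T, TT q n)).card = ∏ q ∈ T, cq q := by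
  induction T using Finset.induction_on with
  | empty => simp
  | insert q T hq ih =>
    have hqp : q.Prime := hT q (mem_insert_self q T)
    have hT' : ∀ r ∈ T, r.Prime := fun r hr => hT r (mem_insert_of_mem hr)
    rw [Finset.prod_insert hq, Finset.prod_insert hq, ← ih hT']
    have hco : Nat.Coprime (q ^ 2) (∏ r ∈ T, r ^ 2) := by
      apply Nat.Coprime.prod_right
      intro r hr
      apply Nat.Coprime.pow
      rw [Nat.coprime_primes hqp (hT' r hr)]
      rintro rfl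
      exact hq hr
    have h := crt_card (q ^ 2) (∏ r ∈ T, r ^ 2) hco (pow_pos hqp.pos 2)
      (Finset.prod_pos (fun r hr => pow_pos (hT' r hr).pos 2)) (fun n => TT q n) (fun n => ∀ r ∈ T, TT r n)
      (fun n => TT_mod q n) (by
        intro n
        refine forall_congr' (fun r => forall_congr' (fun hr => ?_))
        rw [TT_mod r n, TT_mod r (n % ∏ r ∈ T, r ^ 2)]
        rw [Nat.mod_mod_of_dvd n (Finset.dvd_prod_of_mem (fun r => r ^ 2) hr)])
    refine (fcc _ _ (fun n => ?_)).trans (h.trans (congrArg₂ _ (fcc _ _ (fun n => Iff.rfl)) (fcc _ _ (fun n => Iff.rfl))))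
    rw [Finset.forall_mem_insert]

/-- the count needed in the sieve -/
theorem count_T (p e a X : ℕ) (hp : p.Prime) (T : Finset ℕ) (hT : ∀ q ∈ T, q.Prime) (hpT : p ∉ T) :
    |(((Icc 1 X).filter (fun n : ℕ => n ≡ a [MOD p ^ e] ∧ ∀ q ∈ T, TT q n)).card : ℝ) -
      (X : ℝ) / (p : ℝ) ^ e * ∏ q ∈ T, ((cq q : ℝ) / (q : ℝ) ^ 2)| ≤ ∏ q ∈ T, (cq q : ℝ) := by
  have hpe : 0 < p ^ e := pow_pos hp.pos e
  have hco : Nat.Coprime (p ^ e) (∏ q ∈ T, q ^ 2) := by
    apply Nat.Coprime.prod_right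
    intro r hr
    apply Nat.Coprime.pow
    rw [Nat.coprime_primes hp (hT r hr)]
    rintro rfl
    exact hpT hr
  have hprod : 0 < ∏ q ∈ T, q ^ 2 := Finset.prod_pos (fun r hr => pow_pos (hT r hr).pos 2)
  have per1 : ∀ n : ℕ, n ≡ a [MOD p ^ e] ↔ (n % p ^ e) ≡ a [MOD p ^ e] := by
    intro n
    unfold Nat.ModEq
    rw [Nat.mod_mod]
  have per2 : ∀ n : ℕ, (∀ r ∈ T, TT r n) ↔ (∀ r ∈ T, TT r (n % ∏ r ∈ T, r ^ 2)) := by
    intro n
    refine forall_congr' (fun r => forall_congr' (fun hr => ?_))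
    rw [TT_mod r n, TT_mod r (n % ∏ r ∈ T, r ^ 2)]
    rw [Nat.mod_mod_of_dvd n (Finset.dvd_prod_of_mem (fun r => r ^ 2) hr)]
  have h1 := crt_card (p ^ e) (∏ q ∈ T, q ^ 2) hco hpe hprod (fun n => n ≡ a [MOD p ^ e])
    (fun n => ∀ q ∈ T, TT q n) per1 per2
  have h2 : ((range (p ^ e)).filter (fun n => n ≡ a [MOD p ^ e])).card = 1 := by
    rw [Finset.card_eq_one]
    refine ⟨a % p ^ e, ?_⟩
    ext n
    rw [mem_filter, mem_range, mem_singleton]
    constructor
    · rintro ⟨h3, h4⟩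
      unfold Nat.ModEq at h4
      rw [Nat.mod_eq_of_lt h3] at h4
      exact h4
    · rintro rfl
      exact ⟨Nat.mod_lt _ hpe, Nat.mod_modEq _ _⟩
  have h2' : ((range (p ^ e * ∏ q ∈ T, q ^ 2)).filter (fun n => n ≡ a [MOD p ^ e] ∧ ∀ q ∈ T, TT q n)).card =
      ∏ q ∈ T, cq q := by
    refine (fcc _ _ (fun n => Iff.rfl)).trans (h1.trans ?_)
    rw [← card_prod T hT]
    exact (congrArg₂ (· * ·) ((fcc _ _ (fun n => Iff.rfl)).trans h2) (fcc _ _ (fun n => Iff.rfl))).trans (one_mul _)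
  have h3 := periodic_count (p ^ e * ∏ q ∈ T, q ^ 2) X (Nat.mul_pos hpe hprod)
    (fun n => n ≡ a [MOD p ^ e] ∧ ∀ q ∈ T, TT q n) (by
      intro n
      rw [per1 n, per2 n, per1 (n % (p ^ e * ∏ q ∈ T, q ^ 2)), per2 (n % (p ^ e * ∏ q ∈ T, q ^ 2)),
        Nat.mod_mul_right_mod, Nat.mod_mul_left_mod])
  have h5 : (((range (p ^ e * ∏ q ∈ T, q ^ 2)).filter (fun n => n ≡ a [MOD p ^ e] ∧ ∀ q ∈ T, TT q n)).card : ℝ) =
      ∏ q ∈ T, (cq q : ℝ) := by rw [h2']; push_cast; rfl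
  have h6 : |(((Icc 1 X).filter (fun n : ℕ => n ≡ a [MOD p ^ e] ∧ ∀ q ∈ T, TT q n)).card : ℝ) -
      (X : ℝ) / ((p ^ e * ∏ q ∈ T, q ^ 2 : ℕ) : ℝ) * ∏ q ∈ T, (cq q : ℝ)| ≤ ∏ q ∈ T, (cq q : ℝ) := by
    rw [← h5]
    convert h3
  push_cast at h6
  have h4 : (X : ℝ) / (p : ℝ) ^ e * ∏ q ∈ T, ((cq q : ℝ) / (q : ℝ) ^ 2) =
      (X : ℝ) / ((p : ℝ) ^ e * ∏ q ∈ T, (q : ℝ) ^ 2) * ∏ q ∈ T, (cq q : ℝ) := by
    rw [Finset.prod_div_distrib, div_mul_div_comm, div_mul_eq_mul_div]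
  rw [h4]
  exact h6

end Pool.Agent.Y809.PA
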